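import Mathlib

namespace Pool.Agent.Results.MP_a4d033_an.DistinctZeros

open Polynomial

/-- The class `B_n`. -/
def InB (n : ℕ) (p : ℂ[X]) : Prop :=
  p.natDegree ≤ n ∧ ‖p.coeff 0‖ = 1 ∧ ∀ j, 1 ≤ j → ‖p.coeff j‖ ≤ 1

/-- The set of (pairwise distinct) real zeros of `p` in `[-1+a, 1-a]`. -/
def zeros (p : ℂ[X]) (a : ℝ) : Set ℝ := {x | -1 + a ≤ x ∧ x ≤ 1 - a ∧ p.eval (x : ℂ) = 0}

/-- `N(B_n; a)`. -/
noncomputable def N (n : ℕ) (a : ℝ) : ℕ := sSup {k | ∃ p, InB n p ∧ k = (zeros p a).ncard}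

lemma InB.ne_zero {n : ℕ} {p : ℂ[X]} (h : InB n p) : p ≠ 0 := by
  rintro rfl
  have := h.2.1
  simp at this

lemma zeros_card {n : ℕ} {p : ℂ[X]} (h : InB n p) (a : ℝ) :
    (zeros p a).Finite ∧ (zeros p a).ncard ≤ n := by
  have hinj : Set.InjOn (fun x : ℝ => (x : ℂ)) (zeros p a) :=
    fun x _ y _ hxy => Complex.ofReal_injective hxy
  have hsub : (fun x : ℝ => (x : ℂ)) '' (zeros p a) ⊆ (p.roots.toFinset : Set ℂ) := by
    rintro _ ⟨x, hx, rfl⟩
    simp only [Finset.mem_coe, Multiset.mem_toFinset]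
    exact (mem_roots h.ne_zero).2 hx.2.2
  have hfin : ((fun x : ℝ => (x : ℂ)) '' (zeros p a)).Finite :=
    (Finset.finite_toSet _).subset hsub
  refine ⟨Set.Finite.of_finite_image hfin hinj, ?_⟩
  rw [← hinj.ncard_image]
  refine (Set.ncard_le_ncard hsub (Finset.finite_toSet _)).trans ?_
  rw [Set.ncard_coe_finset]
  exact (Multiset.toFinset_card_le _).trans ((card_roots' p).trans h.1)

lemma le_N {n : ℕ} {p : ℂ[X]} (h : InB n p) (a : ℝ) : (zeros p a).ncard ≤ N n a := by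
  apply le_csSup
  · refine ⟨n, ?_⟩
    rintro k ⟨q, hq, rfl⟩
    exact (zeros_card hq a).2
  · exact ⟨p, h, rfl⟩

/-- The tail estimate. -/
lemma tail_bound (m : ℕ) (hm : 1 ≤ m) (y : ℂ) (hy : ‖y‖ ≤ 1 / 16) :
    ‖(1 - y) ^ m * ∑ t ∈ Finset.range (m + 1), ((t + (m - 1)).choose (m - 1) : ℂ) * y ^ t‖
      ≤ 51 / 50 := by
  obtain ⟨k, rfl⟩ : ∃ k, m = k + 1 := ⟨m - 1, by omega⟩
  simp only [Nat.add_sub_cancel]
  have hy1 : ‖y‖ < 1 := by linarith
  have hs := hasSum_choose_mul_geometric_of_norm_lt_one (𝕜 := ℂ) k hy1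
  have hne : (1 - y) ≠ 0 := by
    intro h
    have : y = 1 := by linear_combination -h
    rw [this] at hy1; simp at hy1
  have hsplit := hs.summable.sum_add_tsum_nat_add (k + 1 + 1)
  rw [hs.tsum_eq] at hsplit
  set T := ∑' i, ((i + (k + 1 + 1) + k).choose k : ℂ) * y ^ (i + (k + 1 + 1)) with hT
  have hTb : ‖T‖ ≤ (1 / 4) ^ (k + 1) / 14 := by
    have hg : HasSum (fun i : ℕ => (2 : ℝ) ^ k * (1 / 8) ^ (k + 2) * (1 / 8) ^ i)
        ((2 : ℝ) ^ k * (1 / 8) ^ (k + 2) * (1 - 1 / 8)⁻¹) :=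
      (hasSum_geometric_of_lt_one (by norm_num) (by norm_num)).mul_left _
    have := tsum_of_norm_bounded hg (f := fun i : ℕ =>
      ((i + (k + 1 + 1) + k).choose k : ℂ) * y ^ (i + (k + 1 + 1))) (by
        intro i
        rw [norm_mul, norm_pow, Complex.norm_natCast]
        have h1 : ((i + (k + 1 + 1) + k).choose k : ℝ) ≤ 2 ^ (i + (k + 1 + 1) + k) := by
          exact_mod_cast Nat.choose_le_two_pow _ _
        have h2 : ‖y‖ ^ (i + (k + 1 + 1)) ≤ (1 / 16) ^ (i + (k + 1 + 1)) :=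
          pow_le_pow_left₀ (norm_nonneg _) hy _
        calc ((i + (k + 1 + 1) + k).choose k : ℝ) * ‖y‖ ^ (i + (k + 1 + 1))
            ≤ 2 ^ (i + (k + 1 + 1) + k) * (1 / 16) ^ (i + (k + 1 + 1)) :=
              mul_le_mul h1 h2 (by positivity) (by positivity)
          _ = (2 : ℝ) ^ k * (1 / 8) ^ (k + 2) * (1 / 8) ^ i := by
              have e : ((1 : ℝ) / 8) = 2 * (1 / 16) := by norm_num
              rw [e, mul_pow, mul_pow]
              ring)
    refine this.trans (le_of_eq ?_)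
    have e : ((1 : ℝ) / 8) ^ (k + 2) = (1 / 8) ^ k * (1 / 64) := by rw [pow_add]; norm_num
    rw [e]
    have e2 : (2 : ℝ) ^ k * ((1 / 8) ^ k * (1 / 64)) = (1 / 4) ^ k * (1 / 64) := by
      rw [← mul_assoc, ← mul_pow]; norm_num
    rw [e2, pow_succ]; norm_num; ring
  have hA : ∑ t ∈ Finset.range (k + 1 + 1), ((t + k).choose k : ℂ) * y ^ t
      = 1 / (1 - y) ^ (k + 1) - T := by
    rw [← hsplit]; ring
  rw [hA]
  have : (1 - y) ^ (k + 1) * (1 / (1 - y) ^ (k + 1) - T) = 1 - (1 - y) ^ (k + 1) * T := by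
    rw [mul_sub, mul_one_div_cancel (pow_ne_zero _ hne)]
  rw [this]
  have h1 : ‖1 - y‖ ≤ 17 / 16 := by
    have := norm_sub_le (1 : ℂ) y
    rw [norm_one] at this; linarith
  have h2 : ‖(1 - y) ^ (k + 1) * T‖ ≤ 1 / 50 := by
    rw [norm_mul, norm_pow]
    calc ‖1 - y‖ ^ (k + 1) * ‖T‖ ≤ (17 / 16) ^ (k + 1) * ((1 / 4) ^ (k + 1) / 14) :=
          mul_le_mul (pow_le_pow_left₀ (norm_nonneg _) h1 _) hTb (norm_nonneg _) (by positivity)
      _ = (17 / 64) ^ (k + 1) / 14 := by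
          rw [← mul_div_assoc, ← mul_pow]; norm_num
      _ ≤ (17 / 64) ^ 1 / 14 := by
          have := pow_le_pow_of_le_one (a := (17 / 64 : ℝ)) (by norm_num) (by norm_num)
            (show 1 ≤ k + 1 by omega)
          linarith
      _ ≤ 1 / 50 := by norm_num
  calc ‖1 - (1 - y) ^ (k + 1) * T‖ ≤ ‖(1 : ℂ)‖ + ‖(1 - y) ^ (k + 1) * T‖ := norm_sub_le _ _
    _ ≤ 51 / 50 := by rw [norm_one]; linarith

/-- The polynomial with prescribed zeros. -/
noncomputable def P (x : ℝ) (m M : ℕ) (xs : Fin m → ℝ) : ℂ[X] :=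
  (∏ i, (1 - C ((xs i : ℂ)⁻¹) * X)) * (∑ l ∈ Finset.range M, (C (x : ℂ) * X) ^ l) ^ m *
    ∑ t ∈ Finset.range (m + 1), C (((t + (m - 1)).choose (m - 1) : ℕ) : ℂ) * (C (x : ℂ) * X) ^ (M * t)

lemma P_eval (x : ℝ) (m M : ℕ) (xs : Fin m → ℝ) (z : ℂ) :
    (P x m M xs).eval z = (∏ i, (1 - (xs i : ℂ)⁻¹ * z)) *
      (∑ l ∈ Finset.range M, ((x : ℂ) * z) ^ l) ^ m *
      ∑ t ∈ Finset.range (m + 1), (((t + (m - 1)).choose (m - 1) : ℕ) : ℂ) * ((x : ℂ) * z) ^ (M * t) := by
  unfold P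
  simp only [eval_mul, eval_prod, eval_pow, eval_finsetSum, eval_sub, eval_one, eval_C, eval_X]

lemma P_degree (x : ℝ) (m M : ℕ) (hM : 1 ≤ M) (xs : Fin m → ℝ) :
    (P x m M xs).natDegree ≤ 2 * m * M := by
  unfold P
  have h1 : (∏ i, (1 - C ((xs i : ℂ)⁻¹) * X)).natDegree ≤ m := by
    refine (natDegree_prod_le _ _).trans ?_
    have : ∀ i ∈ (Finset.univ : Finset (Fin m)), (1 - C ((xs i : ℂ)⁻¹) * X).natDegree ≤ 1 := by
      intro i _
      refine (natDegree_sub_le _ _).trans ?_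
      rw [natDegree_one]
      exact max_le (Nat.zero_le _) ((natDegree_C_mul_le _ _).trans natDegree_X_le)
    simpa using Finset.sum_le_sum this
  have hx : (C (x : ℂ) * X).natDegree ≤ 1 := (natDegree_C_mul_le _ _).trans natDegree_X_le
  have h2 : ((∑ l ∈ Finset.range M, (C (x : ℂ) * X) ^ l) ^ m).natDegree ≤ m * (M - 1) := by
    refine natDegree_pow_le.trans (Nat.mul_le_mul_left _ ?_)
    refine natDegree_sum_le_of_forall_le _ _ ?_
    intro l hl
    refine natDegree_pow_le.trans ?_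
    have := Finset.mem_range.1 hl
    calc l * (C (x : ℂ) * X).natDegree ≤ l * 1 := Nat.mul_le_mul_left _ hx
      _ ≤ M - 1 := by omega
  have h3 : (∑ t ∈ Finset.range (m + 1), C (((t + (m - 1)).choose (m - 1) : ℕ) : ℂ) *
      (C (x : ℂ) * X) ^ (M * t)).natDegree ≤ M * m := by
    refine natDegree_sum_le_of_forall_le _ _ ?_
    intro t ht
    refine (natDegree_C_mul_le _ _).trans (natDegree_pow_le.trans ?_)
    have := Finset.mem_range.1 ht
    calc M * t * (C (x : ℂ) * X).natDegree ≤ M * t * 1 := Nat.mul_le_mul_left _ hx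
      _ ≤ M * m := by rw [mul_one]; exact Nat.mul_le_mul_left _ (by omega)
  refine natDegree_mul_le.trans ?_
  have h4 := natDegree_mul_le (p := (∏ i, (1 - C ((xs i : ℂ)⁻¹) * X)))
    (q := (∑ l ∈ Finset.range M, (C (x : ℂ) * X) ^ l) ^ m)
  have h5 : m + m * (M - 1) = m * M := by
    obtain ⟨k, rfl⟩ : ∃ k, M = k + 1 := ⟨M - 1, by omega⟩
    simp; ring
  have h6 : 2 * m * M = m * M + M * m := by ring
  omega

lemma P_coeff_zero (x : ℝ) (m M : ℕ) (hM : 1 ≤ M) (xs : Fin m → ℝ) :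
    (P x m M xs).coeff 0 = 1 := by
  rw [coeff_zero_eq_eval_zero, P_eval]
  have h1 : ∑ l ∈ Finset.range M, ((x : ℂ) * 0) ^ l = 1 := by
    rw [mul_zero, Finset.sum_eq_single 0]
    · simp
    · intro b _ hb; exact zero_pow hb
    · intro h; exact absurd (Finset.mem_range.2 (by omega)) h
  have h2 : ∑ t ∈ Finset.range (m + 1), (((t + (m - 1)).choose (m - 1) : ℕ) : ℂ) *
      ((x : ℂ) * 0) ^ (M * t) = 1 := by
    rw [mul_zero, Finset.sum_eq_single 0]
    · simp
    · intro b _ hb; rw [zero_pow (Nat.mul_ne_zero (by omega) hb), mul_zero]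
    · intro h; exact absurd (Finset.mem_range.2 (by omega)) h
  rw [h1, h2]; simp

lemma P_root (x : ℝ) (m M : ℕ) (xs : Fin m → ℝ) (hxs : ∀ i, xs i ≠ 0) (i : Fin m) :
    (P x m M xs).eval (xs i : ℂ) = 0 := by
  rw [P_eval, Finset.prod_eq_zero (Finset.mem_univ i)]
  · simp
  · rw [inv_mul_cancel₀ (by exact_mod_cast hxs i), sub_self]

lemma P_bound (x : ℝ) (m M : ℕ) (xs : Fin m → ℝ) (hx0 : 0 < x) (hx1 : x < 1)
    (hm : 1 ≤ m) (hxM : x ^ M ≤ 1 / 16) (hlo : ∀ i, x ≤ xs i)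
    (hhi : ∀ i, xs i ≤ x + (1 - x) * (1 / 20) / m) (hxm : (1 - x) * m ≤ 1 / 10)
    (z : ℂ) (hz : ‖z‖ = 1) : ‖(P x m M xs).eval z‖ ^ 2 ≤ 3 / 2 := by
  have hm0 : (0 : ℝ) < m := by exact_mod_cast hm
  set w : ℂ := (x : ℂ) * z with hw
  have hwn : ‖w‖ = x := by
    rw [hw, norm_mul, hz, mul_one, Complex.norm_real, Real.norm_of_nonneg hx0.le]
  have hne : (1 - w) ≠ 0 := by
    intro h
    have : w = 1 := by linear_combination -h
    rw [this] at hwn; simp at hwn; linarith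
  have hnorm : 1 - x ≤ ‖1 - w‖ := by
    have := norm_sub_norm_le (1 : ℂ) w
    rw [norm_one, hwn] at this; exact this
  have hpos : 0 < ‖1 - w‖ := norm_pos_iff.2 hne
  have hgeom : (∑ l ∈ Finset.range M, w ^ l) = (1 - w ^ M) / (1 - w) := by
    rw [eq_div_iff hne, geom_sum_mul_neg]
  have hy : ‖w ^ M‖ ≤ 1 / 16 := by rw [norm_pow, hwn]; exact hxM
  have htail := tail_bound m hm (w ^ M) hy
  have hP : (P x m M xs).eval z = (∏ i, ((1 - (xs i : ℂ)⁻¹ * z) / (1 - w))) *
      ((1 - w ^ M) ^ m * ∑ t ∈ Finset.range (m + 1),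
        ((t + (m - 1)).choose (m - 1) : ℂ) * (w ^ M) ^ t) := by
    rw [P_eval, ← hw, hgeom, Finset.prod_div_distrib, Finset.prod_const, Finset.card_univ,
      Fintype.card_fin, div_pow]
    have : ∀ t, w ^ (M * t) = (w ^ M) ^ t := fun t => pow_mul _ _ _
    simp only [this]
    field_simp
  have hr : ∀ i, ‖(1 - (xs i : ℂ)⁻¹ * z) / (1 - w)‖ ≤ x⁻¹ * (1 + (1 / 20) / m) := by
    intro i
    have hxi : 0 < xs i := hx0.trans_le (hlo i)
    have hxic : (xs i : ℂ) ≠ 0 := by exact_mod_cast hxi.ne'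
    have h1 : ‖1 - (xs i : ℂ)⁻¹ * z‖ = (xs i)⁻¹ * ‖1 - (xs i : ℂ) * z‖ := by
      have e1 : 1 - (xs i : ℂ)⁻¹ * z = (xs i : ℂ)⁻¹ * ((xs i : ℂ) - z) := by
        field_simp
      have e2 : ‖(xs i : ℂ) - z‖ = ‖1 - (xs i : ℂ) * z‖ := by
        have hzz : (starRingEnd ℂ) z * z = 1 := by
          rw [mul_comm, Complex.mul_conj, Complex.normSq_eq_norm_sq, hz]; norm_num
        have e3 : (starRingEnd ℂ) ((xs i : ℂ) - z) * z = -(1 - (xs i : ℂ) * z) := by
          rw [map_sub, Complex.conj_ofReal, sub_mul, hzz]; ring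
        have e4 := congrArg norm e3
        rw [norm_mul, hz, mul_one, norm_neg, RCLike.norm_conj] at e4
        exact e4
      rw [e1, norm_mul, e2, norm_inv, Complex.norm_real, Real.norm_of_nonneg hxi.le]
    rw [norm_div, h1]
    have h2 : ‖1 - (xs i : ℂ) * z‖ ≤ ‖1 - w‖ * (1 + (1 / 20) / m) := by
      have e1 : 1 - (xs i : ℂ) * z = (1 - w) - ((xs i - x : ℝ) : ℂ) * z := by
        rw [hw]; push_cast; ring
      rw [e1]
      refine (norm_sub_le _ _).trans ?_
      rw [norm_mul, hz, mul_one, Complex.norm_real, Real.norm_of_nonneg (by linarith [hlo i])]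
      have e2 : (1 - x) * (1 / 20) / m ≤ ‖1 - w‖ * ((1 / 20) / m) := by
        rw [mul_div_assoc]
        exact mul_le_mul_of_nonneg_right hnorm (by positivity)
      linarith [hhi i]
    have h3 : (xs i)⁻¹ ≤ x⁻¹ := inv_anti₀ hx0 (hlo i)
    calc (xs i)⁻¹ * ‖1 - (xs i : ℂ) * z‖ / ‖1 - w‖
        ≤ x⁻¹ * (‖1 - w‖ * (1 + (1 / 20) / m)) / ‖1 - w‖ := by
          apply div_le_div_of_nonneg_right _ hpos.le
          exact mul_le_mul h3 h2 (norm_nonneg _) (by positivity)
      _ = x⁻¹ * (1 + (1 / 20) / m) := by field_simp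
  have hprod : ‖∏ i, ((1 - (xs i : ℂ)⁻¹ * z) / (1 - w))‖ ≤ 200 / 171 := by
    rw [norm_prod]
    calc ∏ i, ‖(1 - (xs i : ℂ)⁻¹ * z) / (1 - w)‖ ≤ ∏ _i : Fin m, (x⁻¹ * (1 + (1 / 20) / m)) :=
          Finset.prod_le_prod (fun _ _ => norm_nonneg _) (fun i _ => hr i)
      _ = (x ^ m)⁻¹ * (1 + (1 / 20) / m) ^ m := by
          rw [Finset.prod_const, Finset.card_univ, Fintype.card_fin, mul_pow, inv_pow]
      _ ≤ (10 / 9) * (20 / 19) := by
          have b1 : 9 / 10 ≤ x ^ m := by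
            have := one_add_mul_le_pow (a := x - 1) (by linarith) m
            have e : 1 + (x - 1) = x := by ring
            rw [e] at this
            nlinarith
          have b2 : (x ^ m)⁻¹ ≤ 10 / 9 := by
            rw [inv_le_comm₀ (by positivity) (by norm_num)]
            norm_num; linarith
          have b3 : (1 + (1 / 20) / (m : ℝ)) ^ m ≤ 20 / 19 := by
            have hu : (1 : ℝ) / 20 / m ≤ 1 / 20 := by
              apply div_le_self (by norm_num)
              exact_mod_cast hm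
            have hu0 : (0 : ℝ) ≤ 1 / 20 / m := by positivity
            have c1 : (19 : ℝ) / 20 ≤ (1 - (1 / 20) / (m : ℝ)) ^ m := by
              have := one_add_mul_le_pow (a := -((1 / 20) / (m : ℝ))) (by linarith) m
              have e : 1 + -((1 / 20) / (m : ℝ)) = 1 - (1 / 20) / (m : ℝ) := by ring
              rw [e] at this
              have e2 : (m : ℝ) * -((1 / 20) / (m : ℝ)) = -(1 / 20) := by field_simp
              rw [e2] at this
              linarith
            have c2 : (1 + (1 / 20) / (m : ℝ)) ^ m * (1 - (1 / 20) / (m : ℝ)) ^ m ≤ 1 := by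
              rw [← mul_pow]
              apply pow_le_one₀
              · apply mul_nonneg <;> linarith
              · nlinarith
            have c3 : 0 ≤ (1 + (1 / 20) / (m : ℝ)) ^ m := by positivity
            nlinarith
          exact mul_le_mul b2 b3 (by positivity) (by norm_num)
      _ = 200 / 171 := by norm_num
  rw [hP, norm_mul]
  have hfin := mul_le_mul hprod htail (norm_nonneg _) (by norm_num)
  have h0 := mul_nonneg (norm_nonneg (∏ i, ((1 - (xs i : ℂ)⁻¹ * z) / (1 - w))))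
    (norm_nonneg ((1 - w ^ M) ^ m * ∑ t ∈ Finset.range (m + 1),
        ((t + (m - 1)).choose (m - 1) : ℂ) * (w ^ M) ^ t))
  nlinarith

lemma P_coeff (x : ℝ) (m M : ℕ) (xs : Fin m → ℝ) (hM : 1 ≤ M)
    (hb : ∀ z : ℂ, ‖z‖ = 1 → ‖(P x m M xs).eval z‖ ^ 2 ≤ 3 / 2) (j : ℕ) (hj : 1 ≤ j) :
    ‖(P x m M xs).coeff j‖ ≤ 1 := by
  set p := P x m M xs with hp
  have hpar := p.sum_sq_norm_coeff_eq_circleAverage
  have hle : Real.circleAverage (fun θ ↦ ‖p.eval θ‖ ^ 2) 0 1 ≤ 3 / 2 := by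
    apply Real.circleAverage_mono_on_of_le_circle
    · apply ContinuousOn.circleIntegrable (by norm_num)
      exact Continuous.continuousOn (by fun_prop)
    · intro z hz
      apply hb
      simpa using hz
  rw [← hpar] at hle
  by_cases hc : p.coeff j = 0
  · rw [hc]; simp
  · have h0 : p.coeff 0 = 1 := P_coeff_zero x m M hM xs
    have hsub : ({0, j} : Finset ℕ) ⊆ p.support := by
      intro i hi
      simp only [Finset.mem_insert, Finset.mem_singleton] at hi
      rcases hi with rfl | rfl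
      · rw [mem_support_iff, h0]; exact one_ne_zero
      · rw [mem_support_iff]; exact hc
    have := Finset.sum_le_sum_of_subset_of_nonneg hsub
      (f := fun i => ‖p.coeff i‖ ^ 2) (fun i _ _ => by positivity)
    rw [Finset.sum_pair (by omega), h0, norm_one] at this
    have h1 : ‖p.coeff j‖ ^ 2 ≤ 1 / 2 := by linarith
    nlinarith [norm_nonneg (p.coeff j)]

/-- The geometric-type sum deciding whether there can be a zero. -/
noncomputable def G (n : ℕ) (a : ℝ) : ℝ := ∑ j ∈ Finset.range n, (1 - a) ^ (j + 1)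

lemma small_case (n : ℕ) (a : ℝ) (ha0 : 0 < a) (hn : 1 / a ^ 2 ≤ n) (ha : a ≤ 1 / 20) :
    1 / 40 / a ≤ (N n a : ℝ) := by
  set m := ⌊1 / (20 * a)⌋₊ with hm
  set M := ⌈3 / (2 * a)⌉₊ with hM
  set x : ℝ := 1 - 2 * a with hx
  have hu : 1 ≤ 1 / (20 * a) := by
    rw [le_div_iff₀ (by positivity)]; linarith
  have hm1 : 1 ≤ m := (Nat.one_le_floor_iff _).2 hu
  have hm0 : (0 : ℝ) < m := by exact_mod_cast hm1
  have hmle : (m : ℝ) ≤ 1 / (20 * a) := Nat.floor_le (by positivity)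
  have hmge : 1 / (20 * a) < m + 1 := Nat.lt_floor_add_one _
  have hMge : 3 / (2 * a) ≤ M := Nat.le_ceil _
  have hMle : (M : ℝ) < 3 / (2 * a) + 1 := Nat.ceil_lt_add_one (by positivity)
  have hM1 : 1 ≤ M := by
    have : (0 : ℝ) < M := lt_of_lt_of_le (by positivity) hMge
    exact_mod_cast this
  have hx0 : 0 < x := by rw [hx]; linarith
  have hx1 : x < 1 := by rw [hx]; linarith
  have hma : (m : ℝ) * a ≤ 1 / 20 := by
    calc (m : ℝ) * a ≤ 1 / (20 * a) * a := mul_le_mul_of_nonneg_right hmle ha0.le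
      _ = 1 / 20 := by field_simp
  have hxM : x ^ M ≤ 1 / 16 := by
    have h1 : x ≤ Real.exp (-(2 * a)) := by
      have := Real.add_one_le_exp (-(2 * a))
      rw [hx]; linarith
    have h2 : x ^ M ≤ Real.exp (-(2 * a)) ^ M := pow_le_pow_left₀ hx0.le h1 _
    rw [← Real.exp_nat_mul] at h2
    have h3 : (M : ℝ) * -(2 * a) ≤ -3 := by
      have : 3 / (2 * a) * (2 * a) ≤ M * (2 * a) :=
        mul_le_mul_of_nonneg_right hMge (by positivity)
      rw [div_mul_cancel₀ _ (by positivity)] at this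
      linarith
    have h4 : Real.exp (-3) ≤ 1 / 16 := by
      have h5 : (16 : ℝ) ≤ Real.exp 3 := by
        have h6 := Real.exp_one_gt_d9
        have h7 : Real.exp 3 = Real.exp 1 ^ 3 := by
          rw [← Real.exp_nat_mul]; norm_num
        rw [h7]
        have h8 : (2.7 : ℝ) ^ 3 ≤ Real.exp 1 ^ 3 :=
          pow_le_pow_left₀ (by norm_num) (by linarith) _
        refine le_trans ?_ h8
        norm_num
      rw [Real.exp_neg, one_div]
      exact inv_anti₀ (by norm_num) h5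
    exact h2.trans ((Real.exp_le_exp.2 h3).trans h4)
  set xs : Fin m → ℝ := fun i => x + (1 - x) * (1 / 20) / m * (((i : ℕ) + 1 : ℝ) / m) with hxs
  have hfac : 0 < (1 - x) * (1 / 20) / m := by
    apply div_pos _ hm0
    apply mul_pos (by linarith) (by norm_num)
  have hfrac : ∀ i : Fin m, 0 < (((i : ℕ) + 1 : ℝ) / m) ∧ (((i : ℕ) + 1 : ℝ) / m) ≤ 1 := by
    intro i
    refine ⟨by positivity, ?_⟩
    rw [div_le_one hm0]
    have : (i : ℕ) + 1 ≤ m := i.2
    exact_mod_cast this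
  have hlo : ∀ i, x ≤ xs i := fun i => by
    simp only [hxs]
    have := mul_pos hfac (hfrac i).1
    linarith
  have hhi : ∀ i, xs i ≤ x + (1 - x) * (1 / 20) / m := fun i => by
    simp only [hxs]
    have := mul_le_mul_of_nonneg_left (hfrac i).2 hfac.le
    linarith
  have hinj : Function.Injective xs := by
    intro i j hij
    simp only [hxs] at hij
    have h1 : (1 - x) * (1 / 20) / m * (((i : ℕ) + 1 : ℝ) / m)
        = (1 - x) * (1 / 20) / m * (((j : ℕ) + 1 : ℝ) / m) := by linarith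
    have h2 := mul_left_cancel₀ hfac.ne' h1
    rw [div_left_inj' hm0.ne'] at h2
    have h3 : ((i : ℕ) : ℝ) = ((j : ℕ) : ℝ) := by linarith
    exact Fin.ext (by exact_mod_cast h3)
  have hxm : (1 - x) * m ≤ 1 / 10 := by rw [hx]; nlinarith
  have hb := P_bound x m M xs hx0 hx1 hm1 hxM hlo hhi hxm
  have hdeg : (P x m M xs).natDegree ≤ n := by
    refine (P_degree x m M hM1 xs).trans ?_
    have h1 : (2 : ℝ) * m * M ≤ n := by
      refine le_trans ?_ hn
      rw [le_div_iff₀ (by positivity)]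
      have h2 : (M : ℝ) * a ≤ 3 / 2 + 1 / 20 := by
        have : (M : ℝ) * a ≤ (3 / (2 * a) + 1) * a := mul_le_mul_of_nonneg_right hMle.le ha0.le
        have e : (3 / (2 * a) + 1) * a = 3 / 2 + a := by field_simp
        rw [e] at this; linarith
      have h3 : 0 ≤ (m : ℝ) * a := by positivity
      have h4 : 0 ≤ (M : ℝ) * a := by positivity
      calc 2 * (m : ℝ) * M * a ^ 2 = 2 * ((m * a) * (M * a)) := by ring
        _ ≤ 2 * ((1 / 20) * (3 / 2 + 1 / 20)) := by
            apply mul_le_mul_of_nonneg_left _ (by norm_num)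
            exact mul_le_mul hma h2 h4 (by norm_num)
        _ ≤ 1 := by norm_num
    exact_mod_cast h1
  have hInB : InB n (P x m M xs) := by
    refine ⟨hdeg, ?_, ?_⟩
    · rw [P_coeff_zero x m M hM1 xs]; simp
    · exact fun j hj => P_coeff x m M xs hM1 hb j hj
  have hxs0 : ∀ i, xs i ≠ 0 := fun i => (hx0.trans_le (hlo i)).ne'
  have hcard : m ≤ (zeros (P x m M xs) a).ncard := by
    have hsub : Set.range xs ⊆ zeros (P x m M xs) a := by
      rintro _ ⟨i, rfl⟩
      refine ⟨?_, ?_, P_root x m M xs hxs0 i⟩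
      · have := hlo i; rw [hx] at this; linarith
      · have h1 := hhi i
        have h2 : (1 - x) * (1 / 20) / m ≤ (1 - x) * (1 / 20) := by
          apply div_le_self
          · apply mul_nonneg (by linarith) (by norm_num)
          · exact_mod_cast hm1
        rw [hx] at h1 h2
        linarith
    have := Set.ncard_le_ncard hsub (zeros_card hInB a).1
    rwa [← Set.image_univ, Set.ncard_image_of_injective _ hinj, Set.ncard_univ,
      Nat.card_eq_fintype_card, Fintype.card_fin] at this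
  have hN : (m : ℝ) ≤ N n a := by exact_mod_cast hcard.trans (le_N hInB a)
  have h5 : 1 / 40 / a ≤ m := by
    have e : 1 / 40 / a = (1 / (20 * a)) / 2 := by field_simp; norm_num
    rw [e]
    have : (1 : ℝ) ≤ m := by exact_mod_cast hm1
    linarith
  exact h5.trans hN

lemma one_zero (n : ℕ) (a : ℝ) (ha0 : 0 < a) (ha1 : a < 1) (hG : 1 ≤ G n a) :
    1 ≤ N n a := by
  set p : ℂ[X] := 1 - C ((G n a : ℝ) : ℂ)⁻¹ * ∑ j ∈ Finset.range n, X ^ (j + 1) with hp
  have hG0 : 0 < G n a := by linarith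
  have hco : ∀ k, p.coeff k = (if k = 0 then 1 else 0) -
      ((G n a : ℝ) : ℂ)⁻¹ * (if 1 ≤ k ∧ k ≤ n then 1 else 0) := by
    intro k
    rw [hp, coeff_sub, coeff_C_mul, finsetSum_coeff, coeff_one]
    congr 2
    simp only [coeff_X_pow]
    by_cases h : 1 ≤ k ∧ k ≤ n
    · rw [if_pos h, Finset.sum_eq_single (k - 1)]
      · rw [if_pos (by omega)]
      · intro b _ hb
        rw [if_neg (by omega)]
      · intro h2
        exact absurd (Finset.mem_range.2 (by omega)) h2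
    · rw [if_neg h]
      apply Finset.sum_eq_zero
      intro b hb
      have := Finset.mem_range.1 hb
      rw [if_neg (by omega)]
  have hInB : InB n p := by
    refine ⟨?_, ?_, ?_⟩
    · rw [natDegree_le_iff_coeff_eq_zero]
      intro k hk
      rw [hco, if_neg (by omega), if_neg (by omega)]; simp
    · rw [hco]; simp
    · intro j hj
      rw [hco, if_neg (by omega), zero_sub, norm_neg, norm_mul, norm_inv, Complex.norm_real,
        Real.norm_of_nonneg hG0.le]
      have h1 : (G n a)⁻¹ ≤ 1 := inv_le_one_of_one_le₀ hG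
      have h2 : ‖(if 1 ≤ j ∧ j ≤ n then (1 : ℂ) else 0)‖ ≤ 1 := by split_ifs <;> simp
      calc (G n a)⁻¹ * ‖(if 1 ≤ j ∧ j ≤ n then (1 : ℂ) else 0)‖ ≤ 1 * 1 :=
            mul_le_mul h1 h2 (norm_nonneg _) (by norm_num)
        _ = 1 := by norm_num
  have hz : (1 - a) ∈ zeros p a := by
    refine ⟨by linarith, le_refl _, ?_⟩
    rw [hp]
    simp only [eval_sub, eval_one, eval_mul, eval_C, eval_finsetSum, eval_pow, eval_X]
    have : (∑ j ∈ Finset.range n, (((1 - a : ℝ)) : ℂ) ^ (j + 1)) = ((G n a : ℝ) : ℂ) := by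
      unfold G; push_cast; rfl
    rw [this, inv_mul_cancel₀ (by exact_mod_cast hG0.ne'), sub_self]
  have h1 : 0 < (zeros p a).ncard := (Set.ncard_pos (zeros_card hInB a).1).2 ⟨_, hz⟩
  exact le_trans h1 (le_N hInB a)

lemma no_zero (n : ℕ) (a : ℝ) (hG : G n a < 1) (p : ℂ[X]) (hp : InB n p) :
    zeros p a = ∅ := by
  ext x
  simp only [Set.mem_empty_iff_false, iff_false]
  rintro ⟨h1, h2, h3⟩
  have hx : ‖(x : ℂ)‖ ≤ 1 - a := by
    rw [Complex.norm_real, Real.norm_eq_abs, abs_le]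
    constructor <;> linarith
  rw [eval_eq_sum_range' (Nat.lt_succ_of_le hp.1), Finset.sum_range_succ'] at h3
  simp only [pow_zero, mul_one] at h3
  have h4 : ‖∑ j ∈ Finset.range n, p.coeff (j + 1) * (x : ℂ) ^ (j + 1)‖ ≤ G n a := by
    refine (norm_sum_le _ _).trans ?_
    unfold G
    refine Finset.sum_le_sum fun j _ => ?_
    rw [norm_mul, norm_pow]
    calc ‖p.coeff (j + 1)‖ * ‖(x : ℂ)‖ ^ (j + 1) ≤ 1 * (1 - a) ^ (j + 1) :=
          mul_le_mul (hp.2.2 _ (by omega)) (pow_le_pow_left₀ (norm_nonneg _) hx _)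
            (by positivity) (by norm_num)
      _ = (1 - a) ^ (j + 1) := one_mul _
  have h5 : p.coeff 0 = -∑ j ∈ Finset.range n, p.coeff (j + 1) * (x : ℂ) ^ (j + 1) := by
    linear_combination h3
  have h6 := hp.2.1
  rw [h5, norm_neg] at h6
  linarith

/-- The order of magnitude of `N(B_n; a)` from below, with the exact condition for the
existence of zeros. -/
theorem result : ∃ c : ℝ, 0 < c ∧ ∀ (n : ℕ) (a : ℝ), 1 ≤ n → 1 / Real.sqrt n ≤ a → a < 1 →
    (1 ≤ ∑ j ∈ Finset.range n, (1 - a) ^ (j + 1) → c / a ≤ (N n a : ℝ)) ∧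
    (∑ j ∈ Finset.range n, (1 - a) ^ (j + 1) < 1 → ∀ p, InB n p → zeros p a = ∅) ∧
    (a ≤ 2 / 5 → 1 ≤ ∑ j ∈ Finset.range n, (1 - a) ^ (j + 1)) ∧
    (1 / 2 ≤ a → ∑ j ∈ Finset.range n, (1 - a) ^ (j + 1) < 1) := by
  refine ⟨1 / 40, by norm_num, ?_⟩
  intro n a hn hna ha1
  have hn0 : (0 : ℝ) < n := by exact_mod_cast hn
  have hs0 : 0 < Real.sqrt n := Real.sqrt_pos.2 hn0
  have ha0 : 0 < a := lt_of_lt_of_le (by positivity) hna
  have hsq : 1 / a ^ 2 ≤ n := by
    rw [div_le_iff₀ (by positivity)]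
    rw [div_le_iff₀ hs0] at hna
    have h1 : 1 ≤ (a * Real.sqrt n) ^ 2 := by nlinarith
    rw [mul_pow, Real.sq_sqrt hn0.le] at h1
    linarith
  refine ⟨?_, ?_, ?_, ?_⟩
  · intro hG
    by_cases h : a ≤ 1 / 20
    · exact small_case n a ha0 hsq h
    · have h1 := one_zero n a ha0 ha1 hG
      have h2 : (1 : ℝ) ≤ N n a := by exact_mod_cast h1
      refine le_trans ?_ h2
      rw [div_le_iff₀ ha0]
      push Not at h
      linarith
  · intro hG p hp
    exact no_zero n a hG p hp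
  · intro ha
    have h3 : 3 ≤ n := by
      have h4 : (25 / 4 : ℝ) ≤ 1 / a ^ 2 := by
        rw [le_div_iff₀ (by positivity)]
        nlinarith
      have h5 : (3 : ℝ) ≤ n := by linarith
      exact_mod_cast h5
    have hsub : Finset.range 3 ⊆ Finset.range n := Finset.range_subset_range.2 h3
    have := Finset.sum_le_sum_of_subset_of_nonneg hsub
      (f := fun j => (1 - a) ^ (j + 1)) (fun i _ _ => pow_nonneg (by linarith) _)
    refine le_trans ?_ this
    simp only [Finset.sum_range_succ, Finset.sum_range_zero]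
    have h6 : (3 : ℝ) / 5 ≤ 1 - a := by linarith
    have h7 : (3 / 5 : ℝ) ^ 2 ≤ (1 - a) ^ 2 := pow_le_pow_left₀ (by norm_num) h6 _
    have h8 : (3 / 5 : ℝ) ^ 3 ≤ (1 - a) ^ 3 := pow_le_pow_left₀ (by norm_num) h6 _
    norm_num at h7 h8 ⊢
    linarith
  · intro ha
    have h1 : ∀ k : ℕ, ∑ j ∈ Finset.range k, ((1 : ℝ) / 2) ^ (j + 1) = 1 - (1 / 2) ^ k := by
      intro k
      induction k with
      | zero => simp
      | succ k ih => rw [Finset.sum_range_succ, ih, pow_succ]; ring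
    have h2 : ∑ j ∈ Finset.range n, (1 - a) ^ (j + 1)
        ≤ ∑ j ∈ Finset.range n, ((1 : ℝ) / 2) ^ (j + 1) :=
      Finset.sum_le_sum fun j _ => pow_le_pow_left₀ (by linarith) (by linarith) _
    rw [h1] at h2
    have h3 : (0 : ℝ) < (1 / 2) ^ n := by positivity
    linarith

end Pool.Agent.Results.MP_a4d033_an.DistinctZeros
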